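import Mathlib

namespace Pool.Agent.Results.MP_afd993_co.Q1
open Classical

/-- Domination number. -/
noncomputable def gamma {V : Type} (G : SimpleGraph V) : ℕ :=
  sInf {c | ∃ D : Finset V, c = D.card ∧ ∀ u, u ∈ D ∨ ∃ v ∈ D, G.Adj u v}

/-- `π` makes `G` a `k`-fold cover of `F`. -/
def IsCover {W V : Type} (G : SimpleGraph W) (F : SimpleGraph V) (π : W → V) (k : ℕ) : Prop :=
  Function.Surjective π ∧ (∀ w, Set.BijOn π (G.neighborSet w) (F.neighborSet (π w))) ∧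
    ∀ u, (π ⁻¹' {u}).ncard = k

abbrev V (m : ℕ) := Fin (m + 2) → ZMod (m + 3)
abbrev K (m : ℕ) := {s : V m // ∃ i, s i = 0}

variable {m : ℕ}

def F (m : ℕ) : SimpleGraph (V m) where
  Adj u v := u ≠ v ∧ ∃ i, u i = v i
  symm := ⟨fun _ _ h => ⟨h.1.symm, h.2.imp fun _ e => e.symm⟩⟩
  loopless := ⟨fun _ h => h.1 rfl⟩

def z : K m := ⟨0, 0, rfl⟩
def p : K m := ⟨Pi.single 0 1, 1, by simp⟩

lemma zp : (z : K m) ≠ p := fun h => by
  have : Fact (1 < m + 3) := ⟨by omega⟩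
  have := congrFun (congrArg Subtype.val h) 0
  simp [z, p] at this

noncomputable def c (u v : V m) : K m := if h : ∃ i, (v - u) i = 0 then ⟨v - u, h⟩ else z

def G (m : ℕ) : SimpleGraph (V m × K m) where
  Adj a b := (F m).Adj a.1 b.1 ∧
    Equiv.swap (c a.1 b.1) p a.2 = Equiv.swap z p (Equiv.swap (c b.1 a.1) p b.2)
  symm := ⟨fun _ _ h => ⟨h.1.symm, by rw [h.2, Equiv.swap_apply_self]⟩⟩
  loopless := ⟨fun _ h => h.1.1 rfl⟩

lemma cover : IsCover (G m) (F m) Prod.fst (Fintype.card (K m)) := by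
  refine ⟨fun u => ⟨(u, z), rfl⟩, fun w => ⟨fun _ h => h.1, ?_, fun v hv => ?_⟩, fun u => ?_⟩
  · rintro ⟨v, b⟩ h ⟨v', b'⟩ h' (rfl : v = v')
    have := h.2.symm.trans h'.2
    simp only [EmbeddingLike.apply_eq_iff_eq] at this
    rw [this]
  · exact ⟨(v, Equiv.swap (c v w.1) p (Equiv.swap z p (Equiv.swap (c w.1 v) p w.2))),
      ⟨hv, by simp⟩, rfl⟩
  · have : (Prod.fst ⁻¹' {u} : Set (V m × K m)) = Set.range (Prod.mk u) := by
      ext ⟨a, b⟩; simp [eq_comm]
    rw [this, Set.ncard_range_of_injective (Prod.mk_right_injective u), Nat.card_eq_fintype_card]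

lemma gG : gamma (G m) ≤ (m + 3) ^ (m + 2) := by
  refine le_trans (b := (Finset.univ.image fun u : V m => (u, (z : K m))).card)
    (Nat.sInf_le ⟨_, rfl, ?_⟩) (Finset.card_image_le.trans (by simp))
  rintro ⟨u, a⟩
  by_cases h : a = z
  · exact Or.inl (by simp [h])
  have h0 : a.1 ≠ 0 := fun e => h (Subtype.ext e)
  obtain ⟨i, hi⟩ := a.2
  refine Or.inr ⟨(u + a.1, z), by simp, ⟨by simpa using h0, i, by simp [hi]⟩, ?_⟩
  have e1 : c u (u + a.1) = a := by
    rw [c, dif_pos ⟨i, by simp [hi]⟩]; exact Subtype.ext (by simp)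
  have e2 : z ≠ c (u + a.1) u := by
    rw [c, dif_pos ⟨i, by simp [hi]⟩]
    intro e
    have := congrArg Subtype.val e
    simp [z, h0] at this
  simp only [e1, Equiv.swap_apply_left, Equiv.swap_apply_of_ne_of_ne e2 zp]

lemma gF : m + 3 ≤ gamma (F m) := by
  refine le_csInf ⟨_, Finset.univ, rfl, by simp⟩ ?_
  rintro _ ⟨D, rfl, h⟩
  by_contra hlt
  have : ∀ i : Fin (m + 2), ∃ x : ZMod (m + 3), x ∉ D.image fun d => d i := fun i => by
    by_contra h0
    push Not at h0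
    have := Finset.card_le_card (fun x _ => h0 x : Finset.univ ⊆ _)
    have h2 := Finset.card_image_le (s := D) (f := fun d => d i)
    simp only [Finset.card_univ, ZMod.card] at this
    omega
  choose u hu using this
  rcases h u with h | ⟨v, hv, -, i, hi⟩
  · exact hu 0 (Finset.mem_image_of_mem _ h)
  · exact hu i (hi ▸ Finset.mem_image_of_mem (fun d => d i) hv)

lemma cK : ((m + 3 : ℝ)) ^ (m + 2) ≤ 2 * Fintype.card (K m) := by
  have h1 := Fintype.card_subtype_compl (fun s : V m => ∃ i, s i = 0)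
  have h2 : Fintype.card {s : V m // ¬ ∃ i, s i = 0} = (m + 2) ^ (m + 2) := by
    rw [Fintype.card_congr ((Equiv.subtypeEquivRight fun s => not_exists).trans
      (Equiv.subtypePiEquivPi (p := fun _ (b : ZMod (m + 3)) => ¬ b = 0)))]
    simp [Fintype.card_subtype_compl]
  have h3 := Fintype.card_subtype_le (fun s : V m => ∃ i, s i = 0)
  have h4 : Fintype.card (V m) = (m + 3) ^ (m + 2) := by simp
  have h5 : Fintype.card (K m) + (m + 2) ^ (m + 2) = (m + 3) ^ (m + 2) := by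
    rw [← h2, h1, ← h4]; exact Nat.add_sub_cancel' h3
  have h6 : (Fintype.card (K m) : ℝ) + (m + 2) ^ (m + 2) = (m + 3) ^ (m + 2) := by
    exact_mod_cast h5
  have h7 := one_add_mul_le_pow (show (-2 : ℝ) ≤ 1 / (m + 2) by
    linarith [show (0 : ℝ) ≤ 1 / (m + 2) by positivity]) (m + 2)
  have h8 : (m + 3 : ℝ) = (1 + 1 / (m + 2)) * (m + 2) := by field_simp; ring
  have h9 : ((m + 2 : ℕ) : ℝ) * (1 / (m + 2)) = 1 := by push_cast; field_simp
  rw [h9] at h7
  have : 2 * (m + 2 : ℝ) ^ (m + 2) ≤ (m + 3) ^ (m + 2) := by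
    rw [h8, mul_pow]; gcongr; linarith
  linarith

theorem result (c : ℝ) (hc : 0 < c) : ∃ (k : ℕ) (W V : Type) (_ : Finite W) (_ : Finite V)
    (G : SimpleGraph W) (F : SimpleGraph V) (π : W → V), 1 ≤ k ∧ IsCover G F π k ∧
    (gamma G : ℝ) < c * k * gamma F := by
  obtain ⟨m, hm⟩ := exists_nat_gt (2 / c)
  refine ⟨_, _, _, inferInstance, inferInstance, G m, F m, _, Fintype.card_pos_iff.2 ⟨z⟩, cover, ?_⟩
  have h1 : (gamma (G m) : ℝ) ≤ (m + 3) ^ (m + 2) := by exact_mod_cast gG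
  have h2 : (m + 3 : ℝ) ≤ gamma (F m) := by exact_mod_cast gF
  have h3 := cK (m := m)
  have h4 : (0 : ℝ) < Fintype.card (K m) := by exact_mod_cast Fintype.card_pos_iff.2 ⟨z⟩
  rw [div_lt_iff₀ hc] at hm
  have : 2 < c * gamma (F m) := by nlinarith
  nlinarith

end Pool.Agent.Results.MP_afd993_co.Q1
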